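import Pool.Agent.GPCU.Defs
import Pool.Agent.GPC.KEY

/-!
# GPCU, module KEY
-/

open scoped BigOperators Topology
open Metric

namespace Pool.Agent.GPCU.KEY

open Pool.Agent.GPC Pool.Agent.GPC.KEY

noncomputable section

theorem thm (hK : Stmt_KRepU) (hID : Stmt_ID) (hL : Stmt_LowDet) (hI : Stmt_IndDet) :
    Stmt_KeyU := by
  intro n N A Y _ _ z0 ρ κ s f hind hκ a b q β 𝒮 c2 h8 hb hab hq hc2 hc21
  obtain ⟨Z, Θ, hΘ, hK⟩ := hK n Y z0 ρ s f hind a b 𝒮 hab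
  have hρ := hind.pos
  -- bound for s
  obtain ⟨Cs, hCs1, hCs⟩ : ∃ Cs : ℝ, 1 ≤ Cs ∧ ∀ z ∈ closedBall z0 (2 * ρ), ‖s z‖ ≤ Cs := by
    have hc : ContinuousOn s (closedBall z0 (2 * ρ)) :=
      hind.ds.continuousOn.mono (closedBall_subset_ball (by linarith))
    obtain ⟨C, hC⟩ := (isCompact_closedBall z0 (2 * ρ)).exists_bound_of_continuousOn hc
    exact ⟨max C 1, le_max_right _ _, fun z hz => (hC z hz).trans (le_max_left _ _)⟩
  obtain ⟨e, he⟩ : ∃ e : ℕ, ∀ k, ∑ ν, β k ν ≤ e :=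
    ⟨Finset.univ.sup (fun k => ∑ ν, β k ν),
      fun k => Finset.le_sup (f := fun k => ∑ ν, β k ν) (Finset.mem_univ k)⟩
  obtain ⟨J, hJ, hJ1⟩ : ∃ J : ℕ, 3 * κ + ((A * e + 2 * Z + 1 : ℕ) : ℝ) ≤ J ∧ 1 ≤ J := by
    refine ⟨A * e + 2 * Z + 1 + ⌈3 * κ⌉₊, ?_, by omega⟩
    have := Nat.le_ceil (3 * κ)
    rw [Nat.cast_add (A * e + 2 * Z + 1) ⌈3 * κ⌉₊]
    linarith
  set b' := b - a with hb'
  have hbb : b' ≤ b := Nat.sub_le _ _
  set M := J * b with hM
  have hM1 : 1 ≤ M := Nat.mul_pos hJ1 hb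
  set p := (M * M - M * b') / (2 * b') with hp
  set F : ℝ := M.factorial * (b' * (Cs ^ J * Θ)) ^ M with hF
  have hF0 : 0 ≤ F := by positivity
  obtain ⟨H0, hH0⟩ : ∃ H0 : ℕ, ∀ H : ℕ, H0 ≤ H →
      1 ≤ H ∧ F / (ρ ^ p * c2 ^ (Z * M)) < H ∧ (H : ℝ) ^ (-κ) < ρ := by
    have h1 : ∀ᶠ H : ℕ in Filter.atTop, (H : ℝ) ^ (-κ) < ρ :=
      ((tendsto_rpow_neg_atTop hκ).comp tendsto_natCast_atTop_atTop).eventually_lt_const hρ
    have h2 : ∀ᶠ H : ℕ in Filter.atTop, F / (ρ ^ p * c2 ^ (Z * M)) < H :=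
      tendsto_natCast_atTop_atTop.eventually_gt_atTop _
    have h3 := Filter.eventually_ge_atTop 1
    exact Filter.eventually_atTop.1 (h3.and (h2.and h1))
  refine ⟨J, Z, H0, fun y H hH Λ hΛ hmin w hw => ?_⟩
  obtain ⟨hH1, hHF, hHρ⟩ := hH0 H hH
  have hHR : (1 : ℝ) ≤ H := by exact_mod_cast hH1
  have hHpos : (0 : ℝ) < H := by linarith
  obtain ⟨k, ws, h, ee, hkZ, hdh, hbh, hrep⟩ := hK y Λ hΛ hmin
  refine ⟨Finset.univ.image ws, (Finset.card_image_le).trans (by simpa using hkZ), ?_⟩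
  intro T z x qq hT
  by_contra hcon
  push Not at hcon
  -- the interpolation determinant
  obtain ⟨pts, hpts, hdet⟩ := hI ℚ (Fin J × Fin b) T
    (fun c r => (r : ℂ) ^ (c.1 : ℕ) * ((mono (x r) (β c.2) : ℚ) : ℂ)) (by
      intro c hc
      by_contra hne
      obtain ⟨r, hr, hr'⟩ := hcon (fun j k => c (j, k)) (by
        intro h0
        apply hne
        funext ⟨j, k⟩
        exact congrFun (congrFun h0 j) k)
      apply hr'
      have := hc r hr
      rw [Fintype.sum_prod_type] at this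
      exact this)
  let σ : Fin J × Fin b ≃ Fin M := finProdFinEquiv
  set Rr : Fin M → ℚ := fun l => pts (σ.symm l) with hRr
  have hRT : ∀ l, Rr l ∈ T := fun l => hpts _
  set jj : Fin M → ℕ := fun c => ((σ.symm c).1 : ℕ) with hjj
  have hjJ : ∀ c, jj c ≤ J := fun c => (σ.symm c).1.isLt.le
  set kk : Fin M → Fin b := fun c => (σ.symm c).2 with hkk
  set E : Matrix (Fin M) (Fin M) ℚ :=
    Matrix.of fun l c => (Rr l) ^ (jj c) * mono (x (Rr l)) (β (kk c)) with hE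
  have hEmap : E.map (algebraMap ℚ ℂ) =
      (Matrix.of fun l c => ((pts l : ℚ) : ℂ) ^ ((c : Fin J × Fin b).1 : ℕ) *
        ((mono (x (pts l)) (β c.2) : ℚ) : ℂ)).submatrix σ.symm σ.symm := by
    ext l c
    simp [hE, hRr, hjj, hkk]
  have hdetE : (E.map (algebraMap ℚ ℂ)).det ≠ 0 := by
    rw [hEmap, Matrix.det_submatrix_equiv_self]
    exact hdet
  have hdetE' : E.det ≠ 0 := by
    intro h0
    apply hdetE
    have := RingHom.map_det (algebraMap ℚ ℂ) E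
    rw [h0, map_zero] at this
    exact this.symm
  -- properties of the points
  have hz0 : ∀ l, z (Rr l) ∈ closedBall z0 ρ := fun l => (hT _ (hRT l)).2.2.1
  have hzw : ∀ l, ‖z (Rr l) - w‖ ≤ (H : ℝ) ^ (-κ) := fun l => (hT _ (hRT l)).2.2.2.1
  have hsz : ∀ l, s (z (Rr l)) = (Rr l : ℂ) := fun l => (hT _ (hRT l)).2.2.2.2.1
  have hx1 : ∀ l ν, |x (Rr l) ν| ≤ 1 := fun l => (hT _ (hRT l)).2.2.2.2.2.1
  have hE' : ∀ l j, c2 / (H : ℝ) ^ 2 ≤ ‖z (Rr l) - ws j‖ := fun l j =>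
    (hT _ (hRT l)).2.2.2.2.2.2.2.2.2.2 _ (Finset.mem_image_of_mem _ (Finset.mem_univ _))
  have hcH : 0 < c2 / (H : ℝ) ^ 2 := by positivity
  have hcH1 : c2 / (H : ℝ) ^ 2 ≤ 1 := by
    rw [div_le_one (by positivity)]
    exact hc21.trans (one_le_pow₀ hHR)
  have hzne : ∀ l j, z (Rr l) ≠ ws j := by
    intro l j h0
    have := hE' l j
    rw [h0, sub_self, norm_zero] at this
    linarith
  have hzb : ∀ l, z (Rr l) ∈ ball z0 (2 * ρ) := fun l =>
    closedBall_subset_ball (by linarith) (hz0 l)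
  have hrep' : ∀ l i, (∏ j, (z (Rr l) - ws j)) * ((mono (x (Rr l)) (β i) : ℚ) : ℂ) =
      ∑ m, h i m (z (Rr l)) * ((mono (x (Rr l)) (β (ee m)) : ℚ) : ℂ) := by
    intro l i
    refine hrep (z (Rr l)) (hzb l) (hzne l) (fun i => ((mono (x (Rr l)) (β i) : ℚ) : ℂ)) ?_ i
    intro g
    rw [hsz l]
    exact (hT _ (hRT l)).2.2.2.2.2.2.2.2.2.1 g
  -- lower bound
  have hlow := hL M E (fun l => (Rr l).den ^ J * qq (Rr l) ^ e) (H ^ (J + A * e)) (by
      intro l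
      obtain ⟨h1, h2, h3, h4, h5, h6, h7, h8, h9⟩ := hT _ (hRT l)
      refine ⟨Nat.mul_pos (Nat.pow_pos (Rat.den_pos _)) (Nat.pow_pos h7), ?_⟩
      rw [pow_add, pow_mul]
      exact Nat.mul_le_mul (Nat.pow_le_pow_left h2 _) (Nat.pow_le_pow_left h8 _)) (by
      intro l c
      obtain ⟨h1, h2, h3, h4, h5, h6, h7, h8, h9, h10⟩ := hT _ (hRT l)
      obtain ⟨k1, hk1⟩ := pow_int (Rr l) (jj c) J (hjJ c)
      obtain ⟨k2, hk2⟩ := mono_int (x (Rr l)) (qq (Rr l)) h9 (β (kk c)) e (he _)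
      refine ⟨k1 * k2, ?_⟩
      push_cast
      rw [← hk1, ← hk2]
      simp only [hE, Matrix.of_apply]
      ring) hdetE'
  -- product formula
  have hprod : (Matrix.of fun l c => ∑ m, ((mono (x (Rr l)) (β (ee m)) : ℚ) : ℂ) *
      (s (z (Rr l)) ^ (jj c) * h (kk c) m (z (Rr l)))).det =
      (∏ l, ∏ j, (z (Rr l) - ws j)) * (E.map (algebraMap ℚ ℂ)).det := by
    rw [← Matrix.det_mul_column]
    congr 1
    ext l c
    simp only [Matrix.of_apply, Matrix.map_apply, hE, hsz l]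
    rw [map_mul, map_pow]
    simp only [eq_ratCast]
    calc _ = ((Rr l : ℚ) : ℂ) ^ (jj c) * ∑ m, h (kk c) m (z (Rr l)) *
          ((mono (x (Rr l)) (β (ee m)) : ℚ) : ℂ) := by
          rw [Finset.mul_sum]
          refine Finset.sum_congr rfl fun m _ => ?_
          ring
      _ = _ := by
          rw [← hrep' l (kk c)]
          ring
  have hQ : ∀ l, (c2 / (H : ℝ) ^ 2) ^ Z ≤ ‖∏ j, (z (Rr l) - ws j)‖ := by
    intro l
    rw [norm_prod]
    calc (c2 / (H : ℝ) ^ 2) ^ Z ≤ (c2 / (H : ℝ) ^ 2) ^ k :=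
          pow_le_pow_of_le_one hcH.le hcH1 hkZ
      _ = ∏ _j : Fin k, (c2 / (H : ℝ) ^ 2) := by
          rw [Finset.prod_const, Finset.card_univ, Fintype.card_fin]
      _ ≤ _ := Finset.prod_le_prod (fun _ _ => hcH.le) (fun j _ => hE' l j)
  have hQ' : (c2 / (H : ℝ) ^ 2) ^ (Z * M) ≤ ‖∏ l, ∏ j, (z (Rr l) - ws j)‖ := by
    rw [norm_prod, pow_mul]
    calc ((c2 / (H : ℝ) ^ 2) ^ Z) ^ M = ∏ _l : Fin M, (c2 / (H : ℝ) ^ 2) ^ Z := by
          rw [Finset.prod_const, Finset.card_univ, Fintype.card_fin]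
      _ ≤ _ := Finset.prod_le_prod (fun _ _ => by positivity) (fun l _ => hQ l)
  rcases Nat.eq_zero_or_pos b' with hb0 | hb0
  · -- the degenerate case
    apply hdetE
    have hl : (∏ l, ∏ j, (z (Rr l) - ws j)) ≠ 0 := by
      refine Finset.prod_ne_zero_iff.2 fun l _ => Finset.prod_ne_zero_iff.2 fun j _ => ?_
      exact sub_ne_zero.2 (hzne l j)
    have h0 : (Matrix.of fun l c => ∑ m, ((mono (x (Rr l)) (β (ee m)) : ℚ) : ℂ) *
      (s (z (Rr l)) ^ (jj c) * h (kk c) m (z (Rr l)))).det = 0 := by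
      apply Matrix.det_eq_zero_of_row_eq_zero (⟨0, hM1⟩ : Fin M)
      intro c
      simp only [Matrix.of_apply]
      apply Finset.sum_eq_zero
      intro m
      exact absurd m.isLt (by omega)
    rw [h0] at hprod
    exact (mul_eq_zero.1 hprod.symm).resolve_left hl
  · have hsub : ball w ρ ⊆ ball z0 (2 * ρ) := by
      intro y hy
      rw [mem_ball] at hy ⊢
      rw [mem_closedBall] at hw
      calc dist y z0 ≤ dist y w + dist w z0 := dist_triangle _ _ _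
        _ < 2 * ρ := by linarith
    have hMb : b' ≤ M := hbb.trans (by nlinarith)
    have hpM : 2 * b' * p + M * b' ≤ M * M := by
      have h1 : 2 * b' * p ≤ M * M - M * b' := by
        rw [hp]; exact Nat.mul_div_le _ _
      have h2 : M * b' ≤ M * M := Nat.mul_le_mul_left _ hMb
      omega
    have hup := hID M b' p hb0 hpM w ((H : ℝ) ^ (-κ)) ρ (Cs ^ J * Θ)
      (Real.rpow_pos_of_pos hHpos _) hHρ (fun l => z (Rr l)) hzw
      (fun c m y => s y ^ (jj c) * h (kk c) m y) (by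
        intro c m
        exact ((hind.ds.mono (hsub.trans (ball_subset_ball (by linarith)))).pow _).mul
          ((hdh (kk c) m).mono hsub)) (by
        intro c m y hy
        rw [norm_mul, norm_pow]
        have h1 : ‖s y‖ ≤ Cs := hCs y (ball_subset_closedBall (hsub hy))
        have h2 : ‖s y‖ ^ (jj c) ≤ Cs ^ J :=
          (pow_le_pow_left₀ (norm_nonneg _) h1 _).trans (pow_le_pow_right₀ hCs1 (hjJ c))
        exact mul_le_mul h2 (hbh _ _ _ (hsub hy)) (norm_nonneg _) (by positivity))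
      (fun l m => ((mono (x (Rr l)) (β (ee m)) : ℚ) : ℂ)) (by
        intro l m
        have h1 := mono_abs_le (x (Rr l)) (hx1 l) (β (ee m))
        rw [Complex.norm_ratCast]
        exact_mod_cast h1)
    rw [hprod, norm_mul] at hup
    have hup' : (c2 / (H : ℝ) ^ 2) ^ (Z * M) * ‖(E.map (algebraMap ℚ ℂ)).det‖ ≤
        F * ((H : ℝ) ^ (-κ) / ρ) ^ p :=
      (mul_le_mul_of_nonneg_right hQ' (norm_nonneg _)).trans hup
    have hexp := exponent κ hκ q b b' J (A * e + 2 * Z + 1) h8 hb0 hq hbb hJ hJ1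
    have hJU : J + (A * e + 2 * Z + 1) = J + A * e + 2 * Z + 1 := by ring
    rw [hJU] at hexp
    have := numeric κ ρ c2 F ‖(E.map (algebraMap ℚ ℂ)).det‖ hρ hc2 H M (J + A * e) Z p hM1 hH1
      hexp hF0 hlow hup'
    linarith

end

end Pool.Agent.GPCU.KEY
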