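import Pool.Agent.GPCU.Defs
import Pool.Agent.GPC.KREP

/-!
# GPCU, module KREP
-/

open scoped BigOperators Topology
open Metric Set

namespace Pool.Agent.GPCU.KREP

open Pool.Agent.GPC Pool.Agent.GPC.KREP

noncomputable section

theorem cont_gm {n : ℕ} {Y : Type} [TopologicalSpace Y] {z0 : ℂ} {ρ : ℝ} {s : ℂ → ℂ}
    {f : Fin n → Y → ℂ → ℂ} (H : IndepU n Y z0 ρ s f) (μ : Option (Fin n) →₀ ℕ) :
    ContinuousOn (fun p : Y × ℂ => gm s (fun j => f j p.1) μ p.2)
      ((univ : Set Y) ×ˢ ball z0 (10 * ρ)) := by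
  unfold gm
  refine continuousOn_finsetProd _ fun o _ => ?_
  refine ContinuousOn.pow ?_ _
  cases o with
  | none =>
    exact (H.ds.continuousOn).comp continuousOn_snd (fun p hp => hp.2)
  | some j => exact H.cont j

theorem thm (hCirc : Stmt_CircU) (hCram : Stmt_Cram) : Stmt_KRepU := by
  classical
  intro n Y _ _ z0 ρ s f H a b S hab
  have hρ := H.pos
  set T : Finset (Option (Fin n) →₀ ℕ) := SS S a with hT
  obtain ⟨c, Z, hc, hZ⟩ := hCirc Y z0 ρ hρ T (fun μ y => gm s (fun j => f j y) μ)
    (fun μ => cont_gm H μ) (fun μ y => diff_gm (H.ind y) μ)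
    (fun y d hd => indep_gm (H.ind y) T d hd)
  -- bounds for the monomials
  have hB : ∀ μ : T, ∃ B : ℝ, ∀ y, ∀ z ∈ closedBall z0 (3 * ρ),
      ‖gm s (fun j => f j y) μ z‖ ≤ B := by
    intro μ
    have hcont : ContinuousOn (fun p : Y × ℂ => gm s (fun j => f j p.1) μ p.2)
        ((univ : Set Y) ×ˢ closedBall z0 (3 * ρ)) :=
      (cont_gm H μ).mono (prod_mono_right (closedBall_subset_ball (by linarith)))
    obtain ⟨B, hB⟩ := (isCompact_univ.prod
      (isCompact_closedBall z0 (3 * ρ))).exists_bound_of_continuousOn hcont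
    exact ⟨B, fun y z hz => hB (y, z) ⟨mem_univ _, hz⟩⟩
  choose B hB using hB
  set C1 : ℝ := ∑ μ : T, |B μ| with hC1
  have hC1n : 0 ≤ C1 := Finset.sum_nonneg fun μ _ => abs_nonneg _
  set m6 : ℝ := max 1 (6 * ρ) with hm6
  have hm61 : 1 ≤ m6 := le_max_left _ _
  refine ⟨Z, m6 ^ Z * (1 + C1 / c), ?_, ?_⟩
  · have : 0 < m6 ^ Z := by positivity
    have : 0 ≤ C1 / c := by positivity
    positivity
  intro y Λ hΛ ⟨p0, hp0⟩
  -- the minors
  let mn : (Fin a → Fin b) → MvPolynomial (Option (Fin n)) ℂ := fun p => (Λ.submatrix id p).det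
  have hmn : ∀ p, (mn p).support ⊆ T := fun p =>
    supp_det S a _ fun i j => hΛ _ _
  obtain ⟨m0, hm0⟩ := MvPolynomial.ne_zero_iff.1 hp0
  have hm0T : m0 ∈ T := hmn p0 (MvPolynomial.mem_support_iff.2 hm0)
  haveI : Nonempty ((Fin a → Fin b) × T) := ⟨(p0, ⟨m0, hm0T⟩)⟩
  obtain ⟨⟨p, μ1⟩, hmax⟩ := Finite.exists_max fun q : (Fin a → Fin b) × T => ‖(mn q.1).coeff q.2‖
  simp only at hmax
  set N : ℝ := ‖(mn p).coeff μ1‖ with hN
  have hNpos : 0 < N := by
    have h1 := hmax (p0, ⟨m0, hm0T⟩)
    simp only at h1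
    have h2 : 0 < ‖(mn p0).coeff m0‖ := norm_pos_iff.2 hm0
    linarith
  obtain ⟨R, k, w, u, hR2, hR3, hk, hw, hu, hu0, hfac, hlow⟩ := hZ y (fun μ => (mn p).coeff μ) N hNpos
    ⟨μ1, rfl⟩ (fun μ => hmax (p, μ))
  have hR0 : 0 < R := by linarith
  -- values of the minors
  let F : (Fin a → Fin b) → ℂ → ℂ := fun q z => ∑ μ : T, (mn q).coeff μ * gm s (fun j => f j y) μ z
  have hF : ∀ q z, MvPolynomial.eval (pt (s z) (fun j => f j y z)) (mn q) = F q z := fun q z =>
    eval_eq s (fun j => f j y) T (mn q) (hmn q) z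
  have hFd : ∀ q, DifferentiableOn ℂ (F q) (ball z0 (10 * ρ)) := fun q => by
    refine DifferentiableOn.fun_sum fun μ _ => ?_
    exact (diff_gm (H.ind y) μ).const_mul _
  have hFb : ∀ q, ∀ z ∈ closedBall z0 (3 * ρ), ‖F q z‖ ≤ C1 * N := by
    intro q z hz
    calc ‖F q z‖ ≤ ∑ μ : T, ‖(mn q).coeff μ * gm s (fun j => f j y) μ z‖ := norm_sum_le _ _
      _ ≤ ∑ μ : T, |B μ| * N := by
        refine Finset.sum_le_sum fun μ _ => ?_
        rw [norm_mul, mul_comm]
        exact mul_le_mul ((hB μ y z hz).trans (le_abs_self _)) (hmax (q, μ)) (norm_nonneg _)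
          (abs_nonneg _)
      _ = C1 * N := by rw [← Finset.sum_mul]
  -- subsets
  have hsub1 : closedBall z0 R ⊆ ball z0 (10 * ρ) := closedBall_subset_ball (by linarith)
  have hsub2 : ball z0 (2 * ρ) ⊆ ball z0 R := ball_subset_ball hR2.le
  have hsub3 : closedBall z0 R ⊆ closedBall z0 (3 * ρ) := closedBall_subset_closedBall hR3.le
  -- products
  have hprod : ∀ z ∈ closedBall z0 R, ‖∏ j, (z - w j)‖ ≤ m6 ^ Z := by
    intro z hz
    rw [norm_prod]
    calc ∏ j, ‖z - w j‖ ≤ ∏ _j : Fin k, m6 := by
          refine Finset.prod_le_prod (fun _ _ => norm_nonneg _) fun j _ => ?_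
          have h1 : dist z z0 ≤ R := hz
          have h2 : dist (w j) z0 < R := hw j
          have h3 : ‖z - w j‖ ≤ 6 * ρ := by
            rw [← dist_eq_norm]
            have := dist_triangle_right z (w j) z0
            linarith
          exact h3.trans (le_max_right _ _)
      _ = m6 ^ k := by rw [Finset.prod_const, Finset.card_univ, Fintype.card_fin]
      _ ≤ m6 ^ Z := pow_le_pow_right₀ hm61 hk
  -- the quotients
  have hqd : ∀ q, DifferentiableOn ℂ (fun z => F q z / u z) (closedBall z0 R) := by
    intro q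
    refine DifferentiableOn.div ((hFd q).mono hsub1) (hu.mono hsub1) hu0
  have hqb : ∀ q, ∀ z ∈ closedBall z0 R, ‖F q z / u z‖ ≤ m6 ^ Z * (C1 / c) := by
    intro q z hz
    refine Complex.norm_le_of_forall_mem_frontier_norm_le (U := ball z0 R) isBounded_ball
      (f := fun z => F q z / u z) ?_ ?_ ?_
    · refine DifferentiableOn.diffContOnCl ?_
      rw [closure_ball z0 hR0.ne']
      exact hqd q
    · intro z hz
      rw [frontier_ball z0 hR0.ne'] at hz
      have hzc : z ∈ closedBall z0 R := sphere_subset_closedBall hz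
      have h1 := hlow z hz
      rw [hfac z (hsub1 hzc), norm_mul] at h1
      have h2 := hprod z hzc
      have h3 := hFb q z (hsub3 hzc)
      have hup : 0 < ‖u z‖ := norm_pos_iff.2 (hu0 z hzc)
      rw [norm_div, div_le_iff₀ hup]
      have h4 : c * N ≤ m6 ^ Z * ‖u z‖ :=
        h1.trans (mul_le_mul_of_nonneg_right h2 hup.le)
      have h5 : N ≤ m6 ^ Z * ‖u z‖ / c := by
        rw [le_div_iff₀ hc]; linarith
      calc ‖F q z‖ ≤ C1 * N := h3
        _ ≤ C1 * (m6 ^ Z * ‖u z‖ / c) := mul_le_mul_of_nonneg_left h5 hC1n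
        _ = m6 ^ Z * (C1 / c) * ‖u z‖ := by ring
    · rw [closure_ball z0 hR0.ne']
      exact hz
  -- Cramer
  let L : ℂ → Matrix (Fin a) (Fin b) ℂ := fun z =>
    Λ.map (MvPolynomial.eval (pt (s z) (fun j => f j y z)))
  have hL : ∀ q z, ((L z).submatrix id q).det = F q z := by
    intro q z
    rw [← hF]
    show ((Λ.map (MvPolynomial.eval (pt (s z) (fun j => f j y z)))).submatrix id q).det = _
    rw [Matrix.submatrix_map, ← RingHom.mapMatrix_apply, ← RingHom.map_det]
  have hne : ∀ z ∈ ball z0 (2 * ρ), (∀ j, z ≠ w j) → F p z ≠ 0 := by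
    intro z hz hzw
    have hzc : z ∈ closedBall z0 R := ball_subset_closedBall (hsub2 hz)
    have := hfac z (hsub1 hzc)
    show (∑ μ : T, (mn p).coeff μ * gm s (fun j => f j y) μ z) ≠ 0
    rw [this]
    refine mul_ne_zero (Finset.prod_ne_zero_iff.2 fun j _ => sub_ne_zero.2 (hzw j)) (hu0 z hzc)
  -- injectivity of p
  have hpinj : Function.Injective p := by
    intro i j hij
    by_contra hne'
    have hz : mn p = 0 := by
      refine Matrix.det_zero_of_column_eq hne' fun l => ?_
      simp only [Matrix.submatrix_apply, id, hij]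
    have : N = 0 := by rw [hN, hz, MvPolynomial.coeff_zero, norm_zero]
    linarith
  set S0 : Finset (Fin b) := Finset.univ.filter (fun k => ∀ j, p j ≠ k) with hS0
  have hcard : S0.card = b - a := by
    have h1 : S0 = Finset.univ \ Finset.univ.image p := by
      ext k
      simp [hS0]
    rw [h1, Finset.card_sdiff_of_subset (Finset.subset_univ _), Finset.card_univ, Fintype.card_fin,
      Finset.card_image_of_injective _ hpinj, Finset.card_univ, Fintype.card_fin]
  let e : Fin (b - a) → Fin b := fun l => S0.orderEmbOfFin hcard l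
  have hesum : ∀ G : Fin b → ℂ, ∑ k ∈ S0, G k = ∑ l, G (e l) := by
    intro G
    have h1 : S0 = Finset.univ.map (S0.orderEmbOfFin hcard).toEmbedding :=
      (Finset.map_orderEmbOfFin_univ S0 hcard).symm
    conv_lhs => rw [h1]
    rw [Finset.sum_map]
    rfl
  have hemem : ∀ k ∈ S0, ∃ l, e l = k := by
    intro k hk
    have h1 : k ∈ Set.range (S0.orderEmbOfFin hcard) := by
      rw [Finset.range_orderEmbOfFin]
      exact hk
    exact h1
  have heinj : Function.Injective e := (S0.orderEmbOfFin hcard).injective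
  let hh : Fin b → Fin (b - a) → ℂ → ℂ := fun i l z =>
    if hi : ∃ i', p i' = i then - (F (Function.update p hi.choose (e l)) z / u z)
    else if e l = i then ∏ j, (z - w j) else 0
  refine ⟨k, w, hh, e, hk, ?_, ?_, ?_⟩
  · intro i l
    by_cases hi : ∃ i', p i' = i
    · have h1 : hh i l = fun z => - (F (Function.update p hi.choose (e l)) z / u z) := by
        funext z
        simp only [hh, dif_pos hi]
      rw [h1]
      exact ((hqd _).mono (hsub2.trans ball_subset_closedBall)).neg
    · by_cases hl : e l = i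
      · have h1 : hh i l = fun z => ∏ j, (z - w j) := by
          funext z
          simp only [hh, dif_neg hi, if_pos hl]
        rw [h1]
        refine DifferentiableOn.fun_finsetProd fun j _ => ?_
        exact (differentiable_id.sub_const _).differentiableOn
      · have h1 : hh i l = fun z => 0 := by
          funext z
          simp only [hh, dif_neg hi, if_neg hl]
        rw [h1]
        exact differentiableOn_const _
  · intro i l z hz
    have hzc : z ∈ closedBall z0 R := ball_subset_closedBall (hsub2 hz)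
    have hm0' : 0 ≤ m6 ^ Z := by positivity
    have hc1' : 0 ≤ C1 / c := by positivity
    by_cases hi : ∃ i', p i' = i
    · have h1 : hh i l z = - (F (Function.update p hi.choose (e l)) z / u z) := by
        simp only [hh, dif_pos hi]
      rw [h1, norm_neg]
      refine (hqb _ z hzc).trans ?_
      nlinarith
    · by_cases hl : e l = i
      · have h1 : hh i l z = ∏ j, (z - w j) := by
          simp only [hh, dif_neg hi, if_pos hl]
        rw [h1]
        refine (hprod z hzc).trans ?_
        nlinarith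
      · have h1 : hh i l z = 0 := by
          simp only [hh, dif_neg hi, if_neg hl]
        rw [h1, norm_zero]
        positivity
  · intro z hz hzw v hv i
    have hzc : z ∈ closedBall z0 R := ball_subset_closedBall (hsub2 hz)
    have hFp := hne z hz hzw
    have hv' : (L z).mulVec v = 0 := by
      funext g
      exact hv g
    obtain ⟨_, hcr⟩ := hCram a b (L z) p (by rw [hL]; exact hFp)
    have hfz : F p z = (∏ j, (z - w j)) * u z := hfac z (hsub1 hzc)
    have huz := hu0 z hzc
    by_cases hi : ∃ i', p i' = i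
    · have h1 : ∀ l, hh i l z = - (F (Function.update p hi.choose (e l)) z / u z) := by
        intro l
        simp only [hh, dif_pos hi]
      simp only [h1]
      have h2 := hcr v hv' hi.choose
      rw [hi.choose_spec] at h2
      rw [h2]
      simp only [hL]
      rw [hesum fun k => F (Function.update p hi.choose k) z / F p z * v k, mul_neg, Finset.mul_sum,
        ← Finset.sum_neg_distrib]
      refine Finset.sum_congr rfl fun l _ => ?_
      rw [hfz]
      have hpr : (∏ j, (z - w j)) ≠ 0 :=
        Finset.prod_ne_zero_iff.2 fun j _ => sub_ne_zero.2 (hzw j)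
      field_simp
    · have hiS : i ∈ S0 := by
        rw [hS0, Finset.mem_filter]
        refine ⟨Finset.mem_univ _, fun j hj => hi ⟨j, hj⟩⟩
      obtain ⟨l0, hl0⟩ := hemem i hiS
      have h1 : ∀ l, hh i l z = if e l = i then ∏ j, (z - w j) else 0 := by
        intro l
        simp only [hh, dif_neg hi]
      simp only [h1]
      rw [Finset.sum_eq_single l0]
      · rw [if_pos hl0, hl0]
      · intro l _ hl
        rw [if_neg, zero_mul]
        intro hcon
        exact hl (heinj (hcon.trans hl0.symm))
      · intro hcon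
        exact absurd (Finset.mem_univ _) hcon

end

end Pool.Agent.GPCU.KREP
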