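import Pool.Agent.GPCU.Defs
import Pool.Agent.GPC.LOCG

/-!
# GPCU, module LOCG: the local counting theorem from the absence of bad sequences
-/

open scoped BigOperators Topology
open Metric

namespace Pool.Agent.GPCU.LOCG

open Pool.Agent.GPC Pool.Agent.GPC.LOCG

noncomputable section

lemma key {n : ℕ} {ι : Type} [Fintype ι] {Y : Type} {z0 : ℂ} {ρ κ : ℝ} {s : ℂ → ℂ}
    {f : Fin n → Y → ℂ → ℂ}
    {D A : ℕ} (hbad : ∀ i : ℕ, ∃ H : ℕ, 1 ≤ H ∧ ∃ c : ι → ℂ, Free D (H ^ A) c ∧ ∃ y : Y,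
      ∃ w ∈ closedBall z0 ρ, ∃ T : Finset ℚ, (∀ r ∈ T, r.num.natAbs ≤ H ∧ r.den ≤ H ∧
        IsBad z0 w ρ ((H : ℝ) ^ (-κ)) s (fun j => f j y) c D (H ^ A) r) ∧ i < T.card) :
    ∃ N, Nonempty (BadSeqU n N A Y z0 ρ κ s f (expo (Fin n) D)) := by
  classical
  choose H hH c hc y w hw T hT hcard using hbad
  have h1 : ∀ (i : ℕ) (r : ℚ), ∃ (z : ℂ) (P : MvPolynomial (Fin n ⊕ ι) ℤ), r ∈ T i →
      z ∈ closedBall z0 ρ ∧ ‖z - w i‖ ≤ (H i : ℝ) ^ (-κ) ∧ s z = r ∧ P ≠ 0 ∧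
        IsSmall P D (H i ^ A) ∧
        MvPolynomial.aeval (Sum.elim (fun j => f j (y i) z) (c i)) P = 0 := by
    intro i r
    by_cases hr : r ∈ T i
    · obtain ⟨z, hz, hz2, hz3, P, hP0, hP1, hP2⟩ := (hT i r hr).2.2
      exact ⟨z, P, fun _ => ⟨hz, hz2, hz3, hP0, hP1, hP2⟩⟩
    · exact ⟨0, 0, fun h => absurd h hr⟩
  choose z P hzP using h1
  let S : Finset ((Fin n →₀ ℕ) × (ι →₀ ℕ)) := (expo (Fin n) D) ×ˢ (expo ι D)
  let e : Fin S.card ≃ S := S.equivFin.symm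
  have hHpos : ∀ i, (0 : ℚ) < (H i : ℚ) ^ A := fun i => pow_pos (by exact_mod_cast hH i) _
  have hHne : ∀ i, ((H i : ℂ) ^ A) ≠ 0 := fun i => pow_ne_zero _ (by
    have := hH i
    exact_mod_cast (by omega : H i ≠ 0))
  let Γ : ℕ → (Fin n →₀ ℕ) → Fin S.card → ℂ := fun i α ν =>
    if (e ν).1.1 = α then ∏ k, c i k ^ (e ν).1.2 k else 0
  let x : ℕ → ℚ → Fin S.card → ℚ := fun i r ν =>
    (((P i r).coeff ((e ν).1.1.sumElim (e ν).1.2) : ℤ) : ℚ) / (H i : ℚ) ^ A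
  have hsum : ∀ i r, ∀ α ∈ expo (Fin n) D, ∑ ν, Γ i α ν * (x i r ν : ℂ) =
      MvPolynomial.aeval (c i) (coefPoly (P i r) D α) / (H i : ℂ) ^ A := by
    intro i r α hα
    rw [aeval_coefPoly, Finset.sum_div]
    have h2 : ∑ ν, Γ i α ν * (x i r ν : ℂ) = ∑ p : S, (if p.1.1 = α then
        ∏ k, c i k ^ p.1.2 k else 0) * ((((P i r).coeff (p.1.1.sumElim p.1.2) : ℤ) : ℂ) /
          (H i : ℂ) ^ A) := by
      rw [← Equiv.sum_comp e]
      refine Finset.sum_congr rfl fun ν _ => ?_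
      simp only [Γ, x]
      push_cast
      rfl
    rw [h2, Finset.sum_coe_sort S (fun p => (if p.1 = α then
        ∏ k, c i k ^ p.2 k else 0) * ((((P i r).coeff (p.1.sumElim p.2) : ℤ) : ℂ) /
          (H i : ℂ) ^ A)), Finset.sum_product, Finset.sum_eq_single α]
    · refine Finset.sum_congr rfl fun β _ => ?_
      rw [if_pos rfl]
      ring
    · intro α' _ hne
      refine Finset.sum_eq_zero fun β _ => ?_
      rw [if_neg hne, zero_mul]
    · intro h
      exact absurd hα h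
  refine ⟨S.card, ⟨{
    H := H
    y := y
    Γ := Γ
    w := w
    T := T
    z := z
    x := x
    q := fun i _ => H i ^ A
    card := hcard
    wmem := hw
    num := fun i r hr => (hT i r hr).1
    den := fun i r hr => (hT i r hr).2.1
    zmem := fun i r hr => (hzP i r hr).1
    znear := fun i r hr => (hzP i r hr).2.1
    sz := fun i r hr => (hzP i r hr).2.2.1
    xle := ?_
    qpos := fun i r _ => pow_pos (hH i) _
    qle := fun i r _ => le_refl _
    xq := ?_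
    ne := ?_
    rel := ?_ }⟩⟩
  · intro i r hr ν
    obtain ⟨-, -, -, -, hs, -⟩ := hzP i r hr
    simp only [x]
    rw [abs_div, abs_of_pos (hHpos i), div_le_one (hHpos i)]
    have h3 := hs.2 ((e ν).1.1.sumElim (e ν).1.2)
    rw [← Int.cast_abs, Int.abs_eq_natAbs]
    exact_mod_cast h3
  · intro i r hr ν
    refine ⟨(P i r).coeff ((e ν).1.1.sumElim (e ν).1.2), ?_⟩
    simp only [x]
    push_cast
    rw [mul_div_cancel₀ _ (hHpos i).ne']
  · intro i r hr
    obtain ⟨-, -, -, hP0, hs, -⟩ := hzP i r hr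
    by_contra hcon
    push Not at hcon
    apply hP0
    ext m
    obtain ⟨α, β, rfl⟩ := exists_sumElim m
    rw [MvPolynomial.coeff_zero]
    by_contra hm
    have hdeg := degree_le_of_coeff hs.1 hm
    rw [degree_sumElim] at hdeg
    have hα : α ∈ expo (Fin n) D := mem_expo.mpr (by omega)
    have h4 := hcon α hα
    rw [hsum i r α hα, div_eq_zero_iff, or_iff_left (hHne i)] at h4
    have h5 := hc i _ (coefPoly_small _ _ _ hs α) h4
    apply hm
    rw [← coeff_coefPoly (P i r) D hs.1 α β, h5, MvPolynomial.coeff_zero]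
  · intro i r hr
    obtain ⟨-, -, -, -, hs, h0⟩ := hzP i r hr
    have h6 : ∀ α ∈ expo (Fin n) D, (∑ ν, Γ i α ν * (x i r ν : ℂ)) *
        mono (fun j => f j (y i) (z i r)) α = ((∑ β ∈ expo ι D,
          (((P i r).coeff (α.sumElim β) : ℤ) : ℂ) * ∏ k, c i k ^ β k) *
            mono (fun j => f j (y i) (z i r)) α) / (H i : ℂ) ^ A := by
      intro α hα
      rw [hsum i r α hα, aeval_coefPoly]
      ring
    rw [Finset.sum_congr rfl h6, ← Finset.sum_div, ← aeval_eq (P i r) D hs.1, h0, zero_div]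

/-- LOCGU from SEQU. -/
theorem thm (hseq : Stmt_SeqU) : Stmt_LocGU := by
  intro n ι _ Y _ _ z0 ρ κ s f hind hκ D A
  by_contra hcon
  push Not at hcon
  obtain ⟨N, ⟨S⟩⟩ := key (ι := ι) (Y := Y) (z0 := z0) (ρ := ρ) (κ := κ) (s := s) (f := f)
    (D := D) (A := A) (fun i => by
      obtain ⟨H, hH, c, hc, y, w, hw, T, hT, hcard⟩ := hcon i
      exact ⟨H, hH, c, hc, y, w, hw, T, hT, hcard⟩)
  exact hseq n N A Y z0 ρ κ s f _ hind hκ S

end

end Pool.Agent.GPCU.LOCG
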