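import Pool.Agent.GPCU.Defs

/-!
# GPCU, module THMG: the global counting theorem from the local one
-/

open scoped BigOperators Topology
open Metric

namespace Pool.Agent.GPCU.THMG

open Pool.Agent.GPC

theorem thm (hLoc : Stmt_LocGU) : Stmt_ThmGU := by
  intro n ι _ Y _ _ z0 ρ ε s f hI hε D A
  classical
  obtain ⟨C, hC⟩ := hLoc n ι Y z0 ρ (ε / 2) s f hI (by positivity) D A
  have hρ : 0 < ρ := hI.pos
  refine ⟨C * (4 * ρ + 5) ^ 2, fun H hH c hc y T hT => ?_⟩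
  have hH1 : (1 : ℝ) ≤ H := by exact_mod_cast hH
  have hH0 : (0 : ℝ) < H := by linarith
  set δ : ℝ := (H : ℝ) ^ (-(ε / 2)) with hδ
  have hδ0 : 0 < δ := Real.rpow_pos_of_pos hH0 _
  have hδ1 : δ ≤ 1 := Real.rpow_le_one_of_one_le_of_nonpos hH1 (by linarith)
  have hz : ∀ r : ℚ, ∃ z : ℂ, r ∈ T → (z ∈ closedBall z0 ρ ∧ s z = r ∧
      ∃ P : MvPolynomial (Fin n ⊕ ι) ℤ, P ≠ 0 ∧ IsSmall P D (H ^ A) ∧
      MvPolynomial.aeval (Sum.elim (fun j => f j y z) c) P = 0) := by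
    intro r
    by_cases hr : r ∈ T
    · obtain ⟨z, h1, -, h3, h4⟩ := (hT r hr).2.2
      exact ⟨z, fun _ => ⟨h1, h3, h4⟩⟩
    · exact ⟨0, fun h => absurd h hr⟩
  choose z hz using hz
  let φ : ℚ → ℤ × ℤ := fun r => (⌊(z r - z0).re / (δ / 2)⌋, ⌊(z r - z0).im / (δ / 2)⌋)
  have hfib : ∀ a ∈ T.image φ, (T.filter fun r => φ r = a).card ≤ C := by
    intro a ha
    obtain ⟨r0, hr0, rfl⟩ := Finset.mem_image.1 ha
    refine hC H hH c hc y (z r0) (hz r0 hr0).1 _ ?_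
    intro r hr
    obtain ⟨hr, hφ⟩ := Finset.mem_filter.1 hr
    refine ⟨(hT r hr).1, (hT r hr).2.1, z r, (hz r hr).1, ?_, (hz r hr).2.1, (hz r hr).2.2⟩
    have h1 : ⌊(z r - z0).re / (δ / 2)⌋ = ⌊(z r0 - z0).re / (δ / 2)⌋ := (Prod.ext_iff.1 hφ).1
    have h2 : ⌊(z r - z0).im / (δ / 2)⌋ = ⌊(z r0 - z0).im / (δ / 2)⌋ := (Prod.ext_iff.1 hφ).2
    have key : ∀ x x1 : ℝ, ⌊x / (δ / 2)⌋ = ⌊x1 / (δ / 2)⌋ → |x - x1| ≤ δ / 2 := by
      intro x x1 hxy
      have h := Int.abs_sub_lt_one_of_floor_eq_floor hxy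
      rw [← sub_div, abs_div, abs_of_pos (by positivity : (0 : ℝ) < δ / 2),
        div_lt_one (by positivity)] at h
      exact h.le
    have e1 : |(z r - z r0).re| ≤ δ / 2 := by
      have := key _ _ h1
      rwa [show (z r - z0).re - (z r0 - z0).re = (z r - z r0).re by
        simp only [Complex.sub_re]; ring] at this
    have e2 : |(z r - z r0).im| ≤ δ / 2 := by
      have := key _ _ h2
      rwa [show (z r - z0).im - (z r0 - z0).im = (z r - z r0).im by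
        simp only [Complex.sub_im]; ring] at this
    calc ‖z r - z r0‖ ≤ |(z r - z r0).re| + |(z r - z r0).im| := Complex.norm_le_abs_re_add_abs_im _
      _ ≤ δ / 2 + δ / 2 := add_le_add e1 e2
      _ = δ := by ring
  have hcard := Finset.card_le_mul_card_image (f := φ) T C hfib
  -- the image lies in a box
  let m : ℤ := ⌈ρ / (δ / 2)⌉
  have hm0 : 0 ≤ m := Int.ceil_nonneg (by positivity)
  have hbox : T.image φ ⊆ (Finset.Icc (-m) m) ×ˢ (Finset.Icc (-m) m) := by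
    intro a ha
    obtain ⟨r, hr, rfl⟩ := Finset.mem_image.1 ha
    have hzr : ‖z r - z0‖ ≤ ρ := by
      have := (hz r hr).1
      rwa [mem_closedBall, dist_eq_norm] at this
    have key : ∀ x : ℝ, |x| ≤ ρ → ⌊x / (δ / 2)⌋ ∈ Finset.Icc (-m) m := by
      intro x hx
      rw [Finset.mem_Icc]
      have hd : (0 : ℝ) < δ / 2 := by positivity
      obtain ⟨h1, h2⟩ := abs_le.1 hx
      constructor
      · rw [Int.le_floor, Int.cast_neg, neg_le]
        have : -(x / (δ / 2)) ≤ ρ / (δ / 2) := by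
          rw [← neg_div]
          exact div_le_div_of_nonneg_right (by linarith) hd.le
        exact this.trans (Int.le_ceil _)
      · have h3 : x / (δ / 2) ≤ ρ / (δ / 2) := div_le_div_of_nonneg_right h2 hd.le
        exact_mod_cast (Int.floor_le _).trans (h3.trans (Int.le_ceil _))
    rw [Finset.mem_product]
    exact ⟨key _ ((Complex.abs_re_le_norm _).trans hzr),
      key _ ((Complex.abs_im_le_norm _).trans hzr)⟩
  have hboxcard : ((T.image φ).card : ℝ) ≤ ((4 * ρ + 5) / δ) ^ 2 := by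
    have h1 : (T.image φ).card ≤ (2 * m + 1).toNat * (2 * m + 1).toNat := by
      refine (Finset.card_le_card hbox).trans (le_of_eq ?_)
      rw [Finset.card_product, Int.card_Icc, show m + 1 - -m = 2 * m + 1 by ring]
    have h2 : (((2 * m + 1).toNat : ℕ) : ℝ) = 2 * m + 1 := by
      have h3 : (((2 * m + 1).toNat : ℕ) : ℤ) = 2 * m + 1 := Int.toNat_of_nonneg (by linarith)
      have h4 : ((((2 * m + 1).toNat : ℕ) : ℤ) : ℝ) = ((2 * m + 1 : ℤ) : ℝ) := by rw [h3]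
      rw [Int.cast_natCast] at h4
      rw [h4]; push_cast; ring
    have h5 : (2 * (m : ℝ) + 1) ≤ (4 * ρ + 5) / δ := by
      have h6 : (m : ℝ) < ρ / (δ / 2) + 1 := Int.ceil_lt_add_one _
      have h7 : ρ / (δ / 2) = 2 * ρ / δ := by field_simp
      rw [h7] at h6
      have h8 : (1 : ℝ) ≤ 1 / δ := by
        rw [le_div_iff₀ hδ0]; linarith
      have h9 : (4 * ρ + 5) / δ = 2 * (2 * ρ / δ) + 5 * (1 / δ) := by ring
      rw [h9]; linarith
    have h10 : (0 : ℝ) ≤ 2 * (m : ℝ) + 1 := by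
      have : (0 : ℝ) ≤ m := by exact_mod_cast hm0
      linarith
    calc ((T.image φ).card : ℝ) ≤ (((2 * m + 1).toNat * (2 * m + 1).toNat : ℕ) : ℝ) := by
          exact_mod_cast h1
      _ = (2 * (m : ℝ) + 1) ^ 2 := by push_cast [h2]; rw [← h2]; ring
      _ ≤ ((4 * ρ + 5) / δ) ^ 2 := pow_le_pow_left₀ h10 h5 2
  have hfin : (1 / δ) ^ 2 = (H : ℝ) ^ ε := by
    rw [hδ, Real.rpow_neg hH0.le, one_div, inv_inv, ← Real.rpow_natCast, ← Real.rpow_mul hH0.le]
    norm_num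
  calc (T.card : ℝ) ≤ ((C * (T.image φ).card : ℕ) : ℝ) := by exact_mod_cast hcard
    _ = C * ((T.image φ).card : ℝ) := by push_cast; ring
    _ ≤ C * ((4 * ρ + 5) / δ) ^ 2 := mul_le_mul_of_nonneg_left hboxcard (Nat.cast_nonneg _)
    _ = C * (4 * ρ + 5) ^ 2 * (1 / δ) ^ 2 := by ring
    _ = C * (4 * ρ + 5) ^ 2 * (H : ℝ) ^ ε := by rw [hfin]

end Pool.Agent.GPCU.THMG
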