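import Pool.Agent.GPCU.Defs
import Pool.Agent.GPC.ULTRA

/-!
GPCU, module ULTRA: the algebraic core applied to the field of germs along an ultrafilter on
`ℕ × ℚ`.
-/

set_option autoImplicit false

open Filter MvPolynomial

namespace Pool.Agent.GPCU.ULTRA

open Pool.Agent.GPC Pool.Agent.GPC.ULTRA

noncomputable section

/-- the main step -/
theorem thm (hAlg : Stmt_Alg) (hUltF : Stmt_UltF) : Stmt_UltraU := by
  intro n N A Y z0 ρ κ s f 𝒜 S q
  obtain ⟨𝒱, hG⟩ := hUltF S.T S.card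
  have hGood : Good 𝒱 S.T := hG
  -- points of `T`
  have hT : ∀ᶠ p in (𝒱 : Filter (ℕ × ℚ)), p.2 ∈ S.T p.1 := by
    have : {p : ℕ × ℚ | p.2 ∈ S.T p.1} ∈ 𝒱 := by
      apply hG _ 0 0
      intro i _ E hE
      have : E = ∅ := by
        rw [Finset.eq_empty_iff_forall_notMem]
        intro r hr
        exact (hE r hr).2 (hE r hr).1
      rw [this]; simp
    exact this
  -- germs
  set xg : Fin N → KK 𝒱 := fun ν => gm 𝒱 (fun p => ((S.x p.1 p.2 ν : ℚ) : ℂ)) with hxg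
  set φ : Fin n → KK 𝒱 := fun j => gm 𝒱 (fun p => f j (S.y p.1) (S.z p.1 p.2)) with hφ
  set cg : (Fin n →₀ ℕ) → Fin N → FF 𝒱 := fun α ν => th' 𝒱 (fun i => S.Γ i α ν) with hcg
  have hlin : ∀ α, ∑ ν, ((cg α ν : FF 𝒱) : KK 𝒱) * xg ν
      = gm 𝒱 (fun p => ∑ ν, S.Γ p.1 α ν * ((S.x p.1 p.2 ν : ℚ) : ℂ)) := by
    intro α
    have : (fun p : ℕ × ℚ => ∑ ν, S.Γ p.1 α ν * ((S.x p.1 p.2 ν : ℚ) : ℂ))
        = ∑ ν, incl (fun i => S.Γ i α ν) * (fun p : ℕ × ℚ => ((S.x p.1 p.2 ν : ℚ) : ℂ)) := by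
      funext p
      rw [Finset.sum_apply]
      rfl
    rw [this, map_sum]
    apply Finset.sum_congr rfl
    intro ν _
    rw [map_mul]
    rfl
  have hne : ∃ α ∈ 𝒜, ∑ ν, ((cg α ν : FF 𝒱) : KK 𝒱) * xg ν ≠ 0 := by
    have h1 : ∀ᶠ p in (𝒱 : Filter (ℕ × ℚ)), ∃ α ∈ 𝒜,
        ∑ ν, S.Γ p.1 α ν * ((S.x p.1 p.2 ν : ℚ) : ℂ) ≠ 0 := by
      filter_upwards [hT] with p hp
      exact S.ne p.1 p.2 hp
    obtain ⟨α, hα, h2⟩ := exists_of_eventually 𝒱 𝒜 _ h1
    refine ⟨α, hα, ?_⟩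
    rw [hlin, Ne, gm_eq_zero]
    intro h3
    obtain ⟨p, hp1, hp2⟩ := (h2.and h3).exists
    exact hp1 hp2
  obtain ⟨a, b, β, Λ, p₀, hb, hab, hq, hind, hker, hdet⟩ :=
    hAlg (KK 𝒱) (FF 𝒱) (tt 𝒱) (transc 𝒱 hGood) N n xg 𝒜 cg hne q
  -- lifts
  have hsurj : Function.Surjective (MvPolynomial.map (σ := Option (Fin n)) (th' 𝒱)) :=
    MvPolynomial.map_surjective _ (th'_surj 𝒱)
  choose L hL using fun g k => hsurj (Λ g k)
  refine ⟨a, b, β, Finset.univ.biUnion (fun g => Finset.univ.biUnion (fun k => (L g k).support)),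
    fun i => Matrix.of (fun g k => MvPolynomial.map (Pi.evalRingHom (fun _ => ℂ) i) (L g k)),
    hb, hab, hq, ?_, ?_⟩
  · intro i g k m hm
    have := MvPolynomial.support_map_subset (f := Pi.evalRingHom (fun _ => ℂ) i) (p := L g k) hm
    simp only [Finset.mem_biUnion, Finset.mem_univ, true_and]
    exact ⟨g, k, this⟩
  intro J Z i0 Ex hEx
  -- the minor
  have hM : ∀ᶠ p in (𝒱 : Filter (ℕ × ℚ)), ((Matrix.of (fun g k => MvPolynomial.map
      (Pi.evalRingHom (fun _ => ℂ) p.1) (L g k))).submatrix id p₀).det ≠ 0 := by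
    set D := ((Matrix.of L).submatrix id p₀).det with hD
    have h1 : MvPolynomial.map (th' 𝒱) D ≠ 0 := by
      rw [hD, RingHom.map_det]
      have : (MvPolynomial.map (th' 𝒱)).mapMatrix ((Matrix.of L).submatrix id p₀)
          = Λ.submatrix id p₀ := by
        ext1 g k
        simp only [RingHom.mapMatrix_apply, Matrix.map_apply, Matrix.submatrix_apply,
          Matrix.of_apply, hL]
      rw [this]
      exact hdet
    have h2 : ∃ m, th' 𝒱 (D.coeff m) ≠ 0 := by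
      by_contra h
      push Not at h
      apply h1
      ext m
      rw [MvPolynomial.coeff_map, h m]
      rfl
    obtain ⟨m, hm⟩ := h2
    have hm1 : ∀ᶠ p in (𝒱 : Filter (ℕ × ℚ)), D.coeff m p.1 ≠ 0 := by
      rw [Ne, th'_eq_zero] at hm
      exact Ultrafilter.frequently_iff_eventually.1 (Filter.not_eventually.1 hm)
    filter_upwards [hm1] with p hp h0
    apply hp
    have h3 : MvPolynomial.map (Pi.evalRingHom (fun _ => ℂ) p.1) D = 0 := by
      rw [hD, RingHom.map_det]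
      rw [← h0]
      rfl
    have h4 := congrArg (MvPolynomial.coeff m) h3
    rw [MvPolynomial.coeff_map] at h4
    simpa using h4
  -- points outside `Ex`
  have hE : ∀ᶠ p in (𝒱 : Filter (ℕ × ℚ)), p.2 ∈ S.T p.1 ∧ p.2 ∉ Ex p.1 ∧ i0 ≤ p.1 := by
    have : {p : ℕ × ℚ | p.2 ∉ Ex p.1 ∧ i0 ≤ p.1} ∈ 𝒱 := by
      apply hG _ Z i0
      intro i hi E hE
      refine le_trans (Finset.card_le_card ?_) (hEx i)
      intro r hr
      by_contra hc
      exact (hE r hr).2 ⟨hc, hi⟩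
    exact hT.and this
  -- the linear system
  have hrel : ∑ α ∈ 𝒜, (∑ ν, ((cg α ν : FF 𝒱) : KK 𝒱) * xg ν) * mono φ α = 0 := by
    have h1 : ∑ α ∈ 𝒜, (∑ ν, ((cg α ν : FF 𝒱) : KK 𝒱) * xg ν) * mono φ α
        = gm 𝒱 (fun p => ∑ α ∈ 𝒜, (∑ ν, S.Γ p.1 α ν * ((S.x p.1 p.2 ν : ℚ) : ℂ))
          * mono (fun j => f j (S.y p.1) (S.z p.1 p.2)) α) := by
      have : (fun p : ℕ × ℚ => ∑ α ∈ 𝒜, (∑ ν, S.Γ p.1 α ν * ((S.x p.1 p.2 ν : ℚ) : ℂ))
          * mono (fun j => f j (S.y p.1) (S.z p.1 p.2)) α)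
          = ∑ α ∈ 𝒜, (fun p : ℕ × ℚ => ∑ ν, S.Γ p.1 α ν * ((S.x p.1 p.2 ν : ℚ) : ℂ))
          * (fun p : ℕ × ℚ => mono (fun j => f j (S.y p.1) (S.z p.1 p.2)) α) := by
        funext p
        rw [Finset.sum_apply]
        rfl
      rw [this, map_sum]
      apply Finset.sum_congr rfl
      intro α _
      rw [hlin, hφ, mono_germ 𝒱 (fun j p => f j (S.y p.1) (S.z p.1 p.2)) α, map_mul]
    rw [h1, gm_eq_zero]
    filter_upwards [hT] with p hp
    exact S.rel p.1 p.2 hp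
  have hsys : ∀ᶠ p in (𝒱 : Filter (ℕ × ℚ)), ∀ g, ∑ k, MvPolynomial.eval
      (pt (p.2 : ℂ) (fun j => f j (S.y p.1) (S.z p.1 p.2)))
      (MvPolynomial.map (Pi.evalRingHom (fun _ => ℂ) p.1) (L g k)) *
      ((mono (S.x p.1 p.2) (β k) : ℚ) : ℂ) = 0 := by
    rw [Filter.eventually_all]
    intro g
    have h1 := hker φ hrel g
    have h2 : ∑ k, MvPolynomial.aeval (pt (tt 𝒱) φ) (Λ g k) * mono xg (β k)
        = gm 𝒱 (fun p => ∑ k, MvPolynomial.eval (pt (p.2 : ℂ) (fun j => f j (S.y p.1) (S.z p.1 p.2)))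
          (MvPolynomial.map (Pi.evalRingHom (fun _ => ℂ) p.1) (L g k)) *
          ((mono (S.x p.1 p.2) (β k) : ℚ) : ℂ)) := by
      have : (fun p : ℕ × ℚ => ∑ k, MvPolynomial.eval
          (pt (p.2 : ℂ) (fun j => f j (S.y p.1) (S.z p.1 p.2)))
          (MvPolynomial.map (Pi.evalRingHom (fun _ => ℂ) p.1) (L g k)) *
          ((mono (S.x p.1 p.2) (β k) : ℚ) : ℂ))
          = ∑ k, (fun p : ℕ × ℚ => MvPolynomial.eval
            (pt (p.2 : ℂ) (fun j => f j (S.y p.1) (S.z p.1 p.2)))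
            (MvPolynomial.map (Pi.evalRingHom (fun _ => ℂ) p.1) (L g k)))
            * (fun p : ℕ × ℚ => ((mono (S.x p.1 p.2) (β k) : ℚ) : ℂ)) := by
        funext p
        rw [Finset.sum_apply]
        rfl
      rw [this, map_sum]
      apply Finset.sum_congr rfl
      intro k _
      rw [map_mul]
      congr 1
      · have h3 := eval_germ 𝒱 (fun o p => pt (p.2 : ℂ) (fun j => f j (S.y p.1) (S.z p.1 p.2)) o) (L g k)
        rw [hL] at h3
        have h4 : (fun o => gm 𝒱 (fun p : ℕ × ℚ => pt (p.2 : ℂ)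
            (fun j => f j (S.y p.1) (S.z p.1 p.2)) o)) = pt (tt 𝒱) φ := by
          funext o
          cases o <;> rfl
        rw [h4] at h3
        exact h3.symm
      · rw [hxg, mono_germ 𝒱 (fun ν p => ((S.x p.1 p.2 ν : ℚ) : ℂ)) (β k)]
        congr 1
        funext p
        unfold mono
        push_cast
        rfl
    rw [h2, gm_eq_zero] at h1
    exact h1
  -- contradiction
  by_contra hcon
  push Not at hcon
  have hchoice : ∀ i, ∃ μ : Fin J → Fin b → ℂ, (i0 ≤ i → (∃ p : Fin a → Fin b,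
      ((Matrix.of (fun g k => MvPolynomial.map (Pi.evalRingHom (fun _ => ℂ) i) (L g k))).submatrix
        id p).det ≠ 0) → (∀ r ∈ S.T i, r ∉ Ex i →
          (∀ g, ∑ k, MvPolynomial.eval (pt (r : ℂ) (fun j => f j (S.y i) (S.z i r)))
            (MvPolynomial.map (Pi.evalRingHom (fun _ => ℂ) i) (L g k)) *
            ((mono (S.x i r) (β k) : ℚ) : ℂ) = 0) →
          ∑ j, ∑ k, μ j k * ((r : ℂ) ^ (j : ℕ) * ((mono (S.x i r) (β k) : ℚ) : ℂ)) = 0) ∧
          μ ≠ 0) := by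
    intro i
    by_cases hi : i0 ≤ i ∧ (∃ p : Fin a → Fin b,
      ((Matrix.of (fun g k => MvPolynomial.map (Pi.evalRingHom (fun _ => ℂ) i) (L g k))).submatrix
        id p).det ≠ 0)
    · obtain ⟨μ, h1, h2⟩ := hcon i hi.1 hi.2
      exact ⟨μ, fun _ _ => ⟨h1, h2⟩⟩
    · exact ⟨0, fun h1 h2 => absurd ⟨h1, h2⟩ hi⟩
  choose μ hμ using hchoice
  -- a nonzero coordinate
  have hnz : ∀ᶠ p in (𝒱 : Filter (ℕ × ℚ)), ∃ jk ∈ (Finset.univ : Finset (Fin J × Fin b)),
      μ p.1 jk.1 jk.2 ≠ 0 := by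
    filter_upwards [hM, hE] with p hp1 hp2
    have := (hμ p.1 hp2.2.2 ⟨p₀, hp1⟩).2
    by_contra hc
    push Not at hc
    apply this
    funext j k
    exact hc (j, k) (Finset.mem_univ _)
  obtain ⟨⟨j0, k0⟩, -, hjk⟩ := exists_of_eventually 𝒱 _ _ hnz
  -- the relation of germs
  have hR : ∑ k, Polynomial.aeval (tt 𝒱) (∑ j : Fin J,
      Polynomial.C (th' 𝒱 (fun i => μ i j k)) * Polynomial.X ^ (j : ℕ)) * mono xg (β k) = 0 := by
    have h1 : ∑ k, Polynomial.aeval (tt 𝒱) (∑ j : Fin J,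
        Polynomial.C (th' 𝒱 (fun i => μ i j k)) * Polynomial.X ^ (j : ℕ)) * mono xg (β k)
        = gm 𝒱 (fun p => ∑ j, ∑ k, μ p.1 j k * ((p.2 : ℂ) ^ (j : ℕ) *
          ((mono (S.x p.1 p.2) (β k) : ℚ) : ℂ))) := by
      have : (fun p : ℕ × ℚ => ∑ j, ∑ k, μ p.1 j k * ((p.2 : ℂ) ^ (j : ℕ) *
          ((mono (S.x p.1 p.2) (β k) : ℚ) : ℂ)))
          = ∑ k, (∑ j, incl (fun i => μ i j k) * (fun p : ℕ × ℚ => (p.2 : ℂ)) ^ (j : ℕ))
            * (fun p : ℕ × ℚ => ((mono (S.x p.1 p.2) (β k) : ℚ) : ℂ)) := by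
        funext p
        rw [Finset.sum_apply, Finset.sum_comm]
        apply Finset.sum_congr rfl
        intro k _
        rw [Pi.mul_apply, Finset.sum_apply, Finset.sum_mul]
        apply Finset.sum_congr rfl
        intro j _
        rw [Pi.mul_apply, Pi.pow_apply, incl_apply]
        ring
      rw [this, map_sum]
      apply Finset.sum_congr rfl
      intro k _
      rw [map_mul]
      congr 1
      · rw [map_sum, map_sum]
        apply Finset.sum_congr rfl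
        intro j _
        rw [map_mul, map_mul, map_pow, map_pow, Polynomial.aeval_C, Polynomial.aeval_X]
        rfl
      · rw [hxg, mono_germ 𝒱 (fun ν p => ((S.x p.1 p.2 ν : ℚ) : ℂ)) (β k)]
        congr 1
        funext p
        unfold mono
        push_cast
        rfl
    rw [h1, gm_eq_zero]
    filter_upwards [hM, hE, hsys] with p hp1 hp2 hp3
    exact (hμ p.1 hp2.2.2 ⟨p₀, hp1⟩).1 p.2 hp2.1 hp2.2.1 hp3
  have h0 := hind _ hR k0
  have h1 := congrArg (fun P => Polynomial.coeff P (j0 : ℕ)) h0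
  simp only [Polynomial.finsetSum_coeff, Polynomial.coeff_C_mul, Polynomial.coeff_X_pow,
    Polynomial.coeff_zero] at h1
  rw [Finset.sum_eq_single j0] at h1
  · rw [if_pos rfl, mul_one, th'_eq_zero] at h1
    obtain ⟨p, hp1, hp2⟩ := (h1.and hjk).exists
    exact hp2 hp1
  · intro j _ hj
    rw [if_neg, mul_zero]
    intro h
    exact hj (Fin.ext h.symm)
  · intro h
    exact absurd (Finset.mem_univ _) h

end

end Pool.Agent.GPCU.ULTRA
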