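import Pool.Agent.GPC.ALG
import Pool.Agent.GPC.ALGA
import Pool.Agent.GPC.Cram
import Pool.Agent.GPC.Grow
import Pool.Agent.GPC.ID
import Pool.Agent.GPC.INDDET
import Pool.Agent.GPC.LowDet
import Pool.Agent.GPC.MINOR
import Pool.Agent.GPC.RANKDET
import Pool.Agent.GPC.ULTF
import Pool.Agent.GPCU.CIRC
import Pool.Agent.GPCU.KREP
import Pool.Agent.GPCU.KEY
import Pool.Agent.GPCU.ULTRA
import Pool.Agent.GPCU.SEQ
import Pool.Agent.GPCU.LOCG
import Pool.Agent.GPCU.THMG

/-!
# GPCU: assembly of the counting theorem with parameters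
-/

namespace Pool.Agent.GPCU.Main

open Pool.Agent.GPC

theorem circU : Stmt_CircU := CIRC.thm
theorem krepU : Stmt_KRepU := KREP.thm circU cram_proof
theorem keyU : Stmt_KeyU :=
  KEY.thm krepU (Pool.Agent.GPC.ID.thm Pool.Agent.GPC.RANKDET.thm) lowdet_proof
    Pool.Agent.GPC.INDDET.thm
theorem alg : Stmt_Alg := Pool.Agent.GPC.ALG.thm Pool.Agent.GPC.ALGA.thm grow_proof
  Pool.Agent.GPC.MINOR.thm
theorem ultraU : Stmt_UltraU := ULTRA.thm alg Pool.Agent.GPC.ULTF.thm
theorem seqU : Stmt_SeqU := SEQ.thm ultraU keyU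

/-- The local counting theorem, uniform in the parameter. -/
theorem locGU : Stmt_LocGU := LOCG.thm seqU

/-- The counting theorem, uniform in the parameter. -/
theorem thmGU : Stmt_ThmGU := THMG.thm locGU

end Pool.Agent.GPCU.Main
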